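import Pool.Agent.Lib_helper31.G5.FAMD
import Pool.Agent.Lib_helper44.G5.Defs
import Pool.Agent.Lib_helper5.G5.FAMT

/-! Block FAME. -/

namespace Pool.Agent.G5

open Pool.Agent.G4

open Complex MeasureTheory Filter Topology

variable {m : ℕ}

theorem FAME_mem {S : Sys m} {B : Finset ℕ} (hB : ∀ p ∈ B, p.Prime) :
    ∀ a ∈ facs S B, 1 ≤ a.1 := by
  intro a ha
  unfold facs at ha
  rw [List.mem_map] at ha
  obtain ⟨b, hb, rfl⟩ := ha
  rw [Finset.mem_toList, Finset.mem_product] at hb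
  exact (hB b.1 hb.1).one_le

theorem FAME_famT {N : ℕ} (L : List (ℕ × ℂ)) (hL : ∀ a ∈ L, 1 ≤ a.1) {E : Fm} (hE : Fam N E) :
    Fam N (opTs L E) := by
  induction L with
  | nil => exact hE
  | cons a L ih =>
    have h1 := ih (fun b hb => hL b (List.mem_cons_of_mem _ hb))
    exact fam_opT_pr h1 (hL a List.mem_cons_self)

theorem FAME_famU {N : ℕ} (L : List (ℕ × ℂ)) (hL : ∀ a ∈ L, 1 ≤ a.1) {E : Fm} (hE : Fam N E) :
    Fam N (opUs L E) := by
  induction L with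
  | nil => exact hE
  | cons a L ih =>
    have h1 := ih (fun b hb => hL b (List.mem_cons_of_mem _ hb))
    exact fam_opU_pr h1 (hL a List.mem_cons_self)

theorem FAME_HET {N : ℕ} (L : List (ℕ × ℂ)) (hL : ∀ a ∈ L, 1 ≤ a.1) {E : Fm} (hE : Fam N E)
    {x : Ix} (hx : x.q.Coprime N) (hp : x.2.IsPrimitive) (z : ℂ) :
    HE (opTs L E) x z =
      (L.map fun a => 1 - a.2 * (ev x a.1 * (a.1 : ℂ) ^ (-(1 / 2 + z)))).prod * HE E x z := by
  induction L with
  | nil => simp [opTs]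
  | cons a L ih =>
    have hL' : ∀ b ∈ L, 1 ≤ b.1 := fun b hb => hL b (List.mem_cons_of_mem _ hb)
    have h1 := ih hL'
    have h2 := HE_opT_pr (FAME_famT L hL' hE) (hL a List.mem_cons_self) hx hp z
    show HE (opT a (opTs L E)) x z = _
    rw [h2, h1, List.map_cons, List.prod_cons]
    ring

theorem FAME_HEU {N : ℕ} (L : List (ℕ × ℂ)) (hL : ∀ a ∈ L, 1 ≤ a.1) {E : Fm} (hE : Fam N E)
    {x : Ix} (hx : x.q.Coprime N) (hp : x.2.IsPrimitive) (z : ℂ) :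
    HE (opUs L E) x z =
      (L.map fun a => 1 - starRingEnd ℂ (a.2 * ev x a.1) *
        (a.1 : ℂ) ^ (-(1 / 2 - z))).prod * HE E x z := by
  induction L with
  | nil => simp [opUs]
  | cons a L ih =>
    have hL' : ∀ b ∈ L, 1 ≤ b.1 := fun b hb => hL b (List.mem_cons_of_mem _ hb)
    have h1 := ih hL'
    have h2 := HE_opU_pr (FAME_famU L hL' hE) (hL a List.mem_cons_self) hx hp z
    show HE (opU a (opUs L E)) x z = _
    rw [h2, h1, List.map_cons, List.prod_cons]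
    ring

theorem FAME_prod (S : Sys m) (B : Finset ℕ) (g : ℕ × ℂ → ℂ) :
    ((facs S B).map g).prod = ∏ p ∈ B, ∏ j, g (p, S.α p j) := by
  unfold facs
  rw [List.map_map, Finset.prod_map_toList, Finset.prod_product]
  rfl

/-- FAME -/
theorem fam_EP_pr {S : Sys m} (hm : m ≤ 4) (k : Kers S) {B : Finset ℕ} (hB : ∀ p ∈ B, p.Prime) :
    Fam S.N (EP k B) :=
  FAME_famT _ (FAME_mem hB) (FAME_famT _ (FAME_mem hB) (fam_D_pr hm k))

/-- FAME -/
theorem fam_EQ_pr {S : Sys m} (hm : m ≤ 4) (k : Kers S) {B : Finset ℕ} (hB : ∀ p ∈ B, p.Prime) :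
    Fam S.N (EQ k B) :=
  FAME_famU _ (FAME_mem hB) (FAME_famT _ (FAME_mem hB) (fam_D_pr hm k))

/-- FAME: transform -/
theorem HE_EP_pr {S : Sys m} (hm : m ≤ 4) (k : Kers S) {B : Finset ℕ} (hB : ∀ p ∈ B, p.Prime)
    {x : Ix} (hx : x.q.Coprime S.N) (hp : x.2.IsPrimitive) (z : ℂ) :
    HE (EP k B) x z = PB S B x (1 / 2 + z) ^ 2 * Hf k x z := by
  unfold EP
  rw [FAME_HET _ (FAME_mem hB) (FAME_famT _ (FAME_mem hB) (fam_D_pr hm k)) hx hp,
    FAME_HET _ (FAME_mem hB) (fam_D_pr hm k) hx hp, FAME_prod]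
  unfold PB
  have e : HE (Dx k) x z = Hf k x z := rfl
  rw [e]
  ring

/-- FAME: transform on the critical line -/
theorem HE_EQ_pr {S : Sys m} (hm : m ≤ 4) (k : Kers S) {B : Finset ℕ} (hB : ∀ p ∈ B, p.Prime)
    {x : Ix} (hx : x.q.Coprime S.N) (hp : x.2.IsPrimitive) (t : ℝ) :
    HE (EQ k B) x (t * I) = ((‖PB S B x (1 / 2 + t * I)‖ ^ 2 : ℝ) : ℂ) * Hf k x (t * I) := by
  unfold EQ
  rw [FAME_HEU _ (FAME_mem hB) (FAME_famT _ (FAME_mem hB) (fam_D_pr hm k)) hx hp,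
    FAME_HET _ (FAME_mem hB) (fam_D_pr hm k) hx hp, FAME_prod, FAME_prod]
  have e : HE (Dx k) x (t * I) = Hf k x (t * I) := rfl
  rw [e]
  have h1 : ∏ p ∈ B, ∏ j, (1 - S.α p j * (ev x p * (p : ℂ) ^ (-(1 / 2 + (t : ℂ) * I)))) =
      PB S B x (1 / 2 + t * I) := rfl
  have h2 : ∏ p ∈ B, ∏ j, (1 - starRingEnd ℂ (S.α p j * ev x p) *
      (p : ℂ) ^ (-(1 / 2 - (t : ℂ) * I))) = starRingEnd ℂ (PB S B x (1 / 2 + t * I)) := by
    unfold PB
    rw [map_prod]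
    refine Finset.prod_congr rfl fun p hp => ?_
    rw [map_prod]
    refine Finset.prod_congr rfl fun j _ => ?_
    have h3 : starRingEnd ℂ ((p : ℂ) ^ (-(1 / 2 + (t : ℂ) * I))) =
        (p : ℂ) ^ (-(1 / 2 - (t : ℂ) * I)) := by
      have h4 : (p : ℂ).arg ≠ Real.pi := by
        rw [Complex.natCast_arg]
        exact Real.pi_ne_zero.symm
      have h5 := Complex.cpow_conj (p : ℂ) (-(1 / 2 + (t : ℂ) * I)) h4
      rw [Complex.conj_natCast] at h5
      rw [← h5]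
      congr 1
      simp only [map_neg, map_add, map_div₀, map_one, map_ofNat, map_mul, Complex.conj_ofReal,
        Complex.conj_I]
      ring
    rw [map_sub, map_one, map_mul, map_mul, map_mul, h3]
    ring
  show (∏ p ∈ B, ∏ j, (1 - starRingEnd ℂ (S.α p j * ev x p) *
      (p : ℂ) ^ (-(1 / 2 - (t : ℂ) * I)))) *
    ((∏ p ∈ B, ∏ j, (1 - S.α p j * (ev x p * (p : ℂ) ^ (-(1 / 2 + (t : ℂ) * I))))) *
      Hf k x (t * I)) = _
  rw [h1, h2, ← mul_assoc, ← Complex.normSq_eq_conj_mul_self, Complex.normSq_eq_norm_sq]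

end Pool.Agent.G5
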