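import Pool.Agent.Lib_helper31.G5.FAMD
import Pool.Agent.Lib_helper31.G5.SYM
import Pool.Agent.Lib_helper38.G5.SIV
import Pool.Agent.Lib_helper44.G4.Basic
import Pool.Agent.Lib_helper44.G5.Defs
import Pool.Agent.Lib_helper5.G5.FAMT
import Pool.Agent.Lib_helper5.G5.SMR
import Pool.Agent.Lib_helper72.G5.SMO

/-! Block MSSC. -/

namespace Pool.Agent.G5

open Pool.Agent.G4

open Complex MeasureTheory Filter Topology

variable {m : ℕ}

theorem MSSC_mem {S : Sys m} {B : Finset ℕ} (hB : ∀ p ∈ B, p.Prime) :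
    ∀ a ∈ facs S B, 1 ≤ a.1 := by
  intro a ha
  unfold facs at ha
  rw [List.mem_map] at ha
  obtain ⟨b, hb, rfl⟩ := ha
  rw [Finset.mem_toList, Finset.mem_product] at hb
  exact (hB b.1 hb.1).one_le

theorem MSSC_famT {N : ℕ} (L : List (ℕ × ℂ)) (hL : ∀ a ∈ L, 1 ≤ a.1) {E : Fm} (hE : Fam N E) :
    Fam N (opTs L E) := by
  induction L with
  | nil => exact hE
  | cons a L ih =>
    have h1 := ih (fun b hb => hL b (List.mem_cons_of_mem _ hb))
    exact fam_opT_pr h1 (hL a List.mem_cons_self)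

theorem MSSC_smallU {S : Sys m} (L : List (ℕ × ℂ)) (hL : ∀ a ∈ L, 1 ≤ a.1) {E : Fm}
    (hE : Fam S.N E) (h : SmallR S E) : Fam S.N (opUs L E) ∧ SmallR S (opUs L E) := by
  induction L with
  | nil => exact ⟨hE, h⟩
  | cons a L ih =>
    obtain ⟨h1, h2⟩ := ih (fun b hb => hL b (List.mem_cons_of_mem _ hb))
    exact ⟨fam_opU_pr h1 (hL a List.mem_cons_self), smallR_opU_pr h1 h2 (hL a List.mem_cons_self)⟩

/-- MSSC -/
theorem mss_small_pr {S : Sys m} (hm1 : 1 ≤ m) (hm : m ≤ 4) (k : Kers S) {B : Finset ℕ}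
    (hB : ∀ p ∈ B, p.Prime) (hs : Summable fun n : ℕ => ‖aB S B n‖ ^ 2 / n) {ε : ℝ} (hε : 0 < ε) :
    ∃ Q₀ : ℕ, ∀ Q : ℕ, Q₀ ≤ Q →
      ∑ x ∈ pairs S.N Q, ∫ u : ℝ, ‖EQ k B x (u - ell S x)‖ ^ 2 / (1 + u ^ 2) ≤ ε * Q ^ 2 := by
  obtain ⟨Cb, hCb⟩ := S.rs
  have hrs : RSB (aB S B) Cb := by
    intro x
    refine le_trans (Finset.sum_le_sum fun n _ => ?_) (hCb x)
    unfold aB
    split_ifs
    · exact le_rfl
    · rw [norm_zero, zero_pow two_ne_zero]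
      positivity
  have h1 : SmallR S (fun x u => D (aB S B) (k.K (par x.2)) x u) := smallR_D_pr hm1 hm k hrs hs
  have h2 : opTs (facs S B) (Dx k) = fun x u => D (aB S B) (k.K (par x.2)) x u := by
    funext x u
    exact opTs_D_pr k hB x u
  rw [← h2] at h1
  have hL := MSSC_mem (S := S) hB
  have hF := MSSC_famT (facs S B) hL (fam_D_pr (S := S) hm k)
  have h3 : SmallR S (EQ k B) := (MSSC_smallU (facs S B) hL hF h1).2
  obtain ⟨Q₀, hQ⟩ := h3 0 le_rfl (ε / 2) (by positivity)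
  refine ⟨Q₀, fun Q hQ0 => ?_⟩
  have h4 := hQ Q hQ0
  have h5 : ∀ x ∈ pairs S.N Q, ∫ u : ℝ, ‖EQ k B x (u - ell S x)‖ ^ 2 / (1 + u ^ 2) =
      2 * ∫ u in Set.Ioi (0 : ℝ), ‖EQ k B x (u - ell S x - 0)‖ ^ 2 / (1 + u ^ 2) := by
    intro x hx
    have hx' : x.q.Coprime S.N ∧ x.2.IsPrimitive := (bas_mem_pairs.1 hx).2
    obtain ⟨W, hW, hsym⟩ := sym_EQ_pr k B hx'.1 hx'.2
    have hev : ∀ u : ℝ, ‖EQ k B x (u - ell S x)‖ ^ 2 / (1 + u ^ 2) =
        (fun v : ℝ => ‖EQ k B x (v - ell S x)‖ ^ 2 / (1 + v ^ 2)) |u| := by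
      intro u
      rcases le_or_gt 0 u with h | h
      · rw [abs_of_nonneg h]
      · rw [abs_of_neg h]
        have h6 := hsym (-u)
        have e1 : -ell S x - -u = u - ell S x := by ring
        have e2 : -ell S x + -u = -u - ell S x := by ring
        rw [e1, e2] at h6
        show _ = ‖EQ k B x (-u - ell S x)‖ ^ 2 / (1 + (-u) ^ 2)
        rw [h6, norm_mul, hW, one_mul, RCLike.norm_conj, neg_sq]
    have h7 := integral_comp_abs (f := fun v : ℝ => ‖EQ k B x (v - ell S x)‖ ^ 2 / (1 + v ^ 2))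
    simp_rw [sub_zero]
    rw [← h7]
    exact integral_congr_ae (Filter.Eventually.of_forall hev)
  rw [Finset.sum_congr rfl h5, ← Finset.mul_sum]
  linarith

end Pool.Agent.G5
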