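import Pool.Agent.Lib_helper44.G5.Defs

/-! Block STW. -/

namespace Pool.Agent.G5

open Pool.Agent.G4

open Complex MeasureTheory Filter Topology

variable {m : ℕ}

/-- uniqueness of the coefficients of a power series -/
theorem STW_unique {c : ℕ → ℂ} {r : ℝ} (hr : 0 < r)
    (h : ∀ z : ℂ, ‖z‖ < r → HasSum (fun n => c n * z ^ n) 0) (n : ℕ) : c n = 0 := by
  have h1 : HasFPowerSeriesAt (0 : ℂ → ℂ) (FormalMultilinearSeries.ofScalars ℂ c) 0 := by
    rw [hasFPowerSeriesAt_iff]
    filter_upwards [Metric.ball_mem_nhds (0 : ℂ) hr] with z hz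
    rw [Metric.mem_ball, dist_zero_right] at hz
    have h2 := h z hz
    have e : (fun n => z ^ n • (FormalMultilinearSeries.ofScalars ℂ c).coeff n) =
        fun n => c n * z ^ n := by
      funext n
      rw [FormalMultilinearSeries.coeff_ofScalars, smul_eq_mul, mul_comm]
    rw [e]
    exact h2
  have h2 := h1.eq_zero
  have h3 : (FormalMultilinearSeries.ofScalars ℂ c).coeff n = c n :=
    FormalMultilinearSeries.coeff_ofScalars
  rw [← h3, h2]
  rfl

theorem STW_mul {f : PowerSeries ℂ} {z F : ℂ} (α : ℂ)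
    (h : HasSum (fun n => PowerSeries.coeff n f * z ^ n) F) :
    HasSum (fun n => PowerSeries.coeff n (f * (1 - PowerSeries.C α * PowerSeries.X)) * z ^ n)
      (F * (1 - α * z)) := by
  have h1 : HasSum (fun n => PowerSeries.coeff n (f * PowerSeries.X) * z ^ n) (F * z) := by
    rw [← hasSum_nat_add_iff' 1]
    simp only [Finset.range_one, Finset.sum_singleton, PowerSeries.coeff_zero_mul_X, zero_mul,
      sub_zero, PowerSeries.coeff_succ_mul_X]
    have e : (fun n => PowerSeries.coeff n f * z ^ (n + 1)) =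
        fun n => PowerSeries.coeff n f * z ^ n * z := by
      funext n
      rw [pow_succ]
      ring
    rw [e]
    exact h.mul_right z
  have h2 := h.sub (h1.mul_left α)
  have e : F - α * (F * z) = F * (1 - α * z) := by ring
  rw [e] at h2
  have e2 : (fun n => PowerSeries.coeff n (f * (1 - PowerSeries.C α * PowerSeries.X)) * z ^ n) =
      fun n => PowerSeries.coeff n f * z ^ n -
        α * (PowerSeries.coeff n (f * PowerSeries.X) * z ^ n) := by
    funext n
    have e3 : f * (1 - PowerSeries.C α * PowerSeries.X) =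
        f - PowerSeries.C α * (f * PowerSeries.X) := by ring
    rw [e3, map_sub, PowerSeries.coeff_C_mul]
    ring
  rw [e2]
  exact h2

theorem STW_prod {f : PowerSeries ℂ} {z F : ℂ} (α : Fin m → ℂ) (s : Finset (Fin m))
    (h : HasSum (fun n => PowerSeries.coeff n f * z ^ n) F) :
    HasSum (fun n => PowerSeries.coeff n
      (f * ∏ j ∈ s, (1 - PowerSeries.C (α j) * PowerSeries.X)) * z ^ n)
      (F * ∏ j ∈ s, (1 - α j * z)) := by
  classical
  induction s using Finset.induction_on with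
  | empty => simpa using h
  | insert a s ha ih =>
    rw [Finset.prod_insert ha, Finset.prod_insert ha]
    have h1 := STW_mul (α a) ih
    have e3 : (f * ∏ j ∈ s, (1 - PowerSeries.C (α j) * PowerSeries.X)) *
        (1 - PowerSeries.C (α a) * PowerSeries.X) =
        f * ((1 - PowerSeries.C (α a) * PowerSeries.X) *
          ∏ j ∈ s, (1 - PowerSeries.C (α j) * PowerSeries.X)) := by ring
    have e4 : (F * ∏ j ∈ s, (1 - α j * z)) * (1 - α a * z) =
        F * ((1 - α a * z) * ∏ j ∈ s, (1 - α j * z)) := by ring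
    rw [e3, e4] at h1
    exact h1

theorem STW_euler (S : G4.Sys m) {p : ℕ} (hp : p.Prime) :
    PowerSeries.mk (fun k => S.a (p ^ k)) *
      ∏ j, (1 - PowerSeries.C (S.α p j) * PowerSeries.X) = 1 := by
  have hp0 : (0 : ℝ) < p := by exact_mod_cast hp.pos
  have hs : 0 < √(p : ℝ) := Real.sqrt_pos.mpr hp0
  set G : PowerSeries ℂ := PowerSeries.mk (fun k => S.a (p ^ k)) *
      ∏ j, (1 - PowerSeries.C (S.α p j) * PowerSeries.X) with hG
  have h1 : ∀ z : ℂ, ‖z‖ < (√(p : ℝ))⁻¹ →
      HasSum (fun n => PowerSeries.coeff n (G - 1) * z ^ n) 0 := by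
    intro z hz
    have h2 := S.euler p hp z hz.le
    have h3 : HasSum (fun n => PowerSeries.coeff n (PowerSeries.mk (fun k => S.a (p ^ k))) * z ^ n)
        (∏ j, (1 - S.α p j * z))⁻¹ := by
      simpa only [PowerSeries.coeff_mk] using h2
    have h4 := STW_prod (S.α p) Finset.univ h3
    have hne : (∏ j, (1 - S.α p j * z)) ≠ 0 := by
      rw [Finset.prod_ne_zero_iff]
      intro j _ h0
      have h5 : S.α p j * z = 1 := (sub_eq_zero.1 h0).symm
      have h6 : ‖S.α p j * z‖ < 1 := by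
        rw [norm_mul]
        calc ‖S.α p j‖ * ‖z‖ ≤ √(p : ℝ) * ‖z‖ :=
              mul_le_mul_of_nonneg_right (S.α_lt p hp j).le (norm_nonneg _)
          _ < √(p : ℝ) * (√(p : ℝ))⁻¹ := mul_lt_mul_of_pos_left hz hs
          _ = 1 := mul_inv_cancel₀ hs.ne'
      rw [h5, norm_one] at h6
      exact lt_irrefl _ h6
    rw [inv_mul_cancel₀ hne] at h4
    have h7 : HasSum (fun n => PowerSeries.coeff n (1 : PowerSeries ℂ) * z ^ n) 1 := by
      have := hasSum_single (f := fun n => PowerSeries.coeff n (1 : PowerSeries ℂ) * z ^ n) 0 (by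
        intro n hn
        rw [PowerSeries.coeff_one, if_neg hn, zero_mul])
      simpa using this
    have h8 := h4.sub h7
    rw [sub_self] at h8
    have e : (fun n => PowerSeries.coeff n (G - 1) * z ^ n) = fun n =>
        PowerSeries.coeff n (PowerSeries.mk (fun k => S.a (p ^ k)) *
          ∏ j, (1 - PowerSeries.C (S.α p j) * PowerSeries.X)) * z ^ n -
        PowerSeries.coeff n (1 : PowerSeries ℂ) * z ^ n := by
      funext n
      rw [map_sub, sub_mul]
    rw [e]
    exact h8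
  have h2 : G - 1 = 0 := by
    ext n
    rw [map_zero]
    exact STW_unique (inv_pos.mpr hs) h1 n
  exact sub_eq_zero.1 h2

/-- STW: the old class -/
theorem sys_wsys_pr (S : G4.Sys m) : ∃ W : WSys m, W.a = S.a ∧ W.N = S.N ∧ W.α = S.α ∧ W.μ = S.μ := by
  have hfe : ∀ q : ℕ, 1 < q → q.Coprime S.N → ∀ χ : DirichletCharacter ℂ q, χ.IsPrimitive →
    ∃ (Λ : ℂ → ℂ) (W : ℂ), Differentiable ℂ Λ ∧ ‖W‖ = 1 ∧
      (∀ A B : ℝ, ∃ C : ℝ, ∀ s : ℂ, A ≤ s.re → s.re ≤ B → ‖Λ s‖ ≤ C) ∧
      (∀ s : ℂ, Λ s = W * starRingEnd ℂ (Λ (1 - starRingEnd ℂ s))) ∧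
      ∀ s : ℂ, 1 < s.re → (∏ j, (Gammaℝ (s - S.μ (par χ) j))⁻¹) * Λ s =
        ((S.N : ℂ) * (q : ℂ) ^ m) ^ (s / 2) * LSeries (fun n => S.a n * χ n) s := by
    intro q hq hc χ hχ
    obtain ⟨Λ, W, h1, h2, h3, h4, h5⟩ := S.fe q hq hc χ hχ
    refine ⟨Λ, W, h1, h2, h3, h4, fun s hs => ?_⟩
    rw [h5 s hs, Finset.prod_inv_distrib]
    have hne : ∏ j, Gammaℝ (s - S.μ (par χ) j) ≠ 0 := by
      rw [Finset.prod_ne_zero_iff]
      intro j _
      refine Gammaℝ_ne_zero_of_re_pos ?_
      have := S.μ_lt (par χ) j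
      rw [Complex.sub_re]
      linarith
    field_simp
  exact ⟨⟨S.a, S.N, S.α, S.μ, S.N_pos, S.a_zero, S.a_one, S.a_mul,
    fun p hp => STW_euler S hp, S.rs, hfe⟩, rfl, rfl, rfl, rfl⟩

end Pool.Agent.G5
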