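import Pool.Agent.Lib_helper44.G5.Defs
import Pool.Agent.Lib_helper44.G5.MSU

/-! Block UNI. -/

namespace Pool.Agent.G5

open Pool.Agent.G4

open Complex MeasureTheory Filter Topology

variable {m : ℕ}

theorem UNI_scale (b : ℕ → ℂ) (K : ℝ → ℂ) (x : Ix) (u r : ℝ) :
    D (fun n => (r : ℂ) * b n) K x u = r * D b K x u := by
  unfold D
  rw [← tsum_mul_left]
  exact tsum_congr fun n => by ring

theorem UNI_zero {b : ℕ → ℂ} (hb : RSB b 0) (K : ℝ → ℂ) (x : Ix) (u : ℝ) : D b K x u = 0 := by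
  unfold D
  have h0 : ∀ n : ℕ, b n * ev x n * (((√(n : ℝ))⁻¹ : ℝ) : ℂ) * K (u + Real.log n) = 0 := by
    intro n
    rcases Nat.eq_zero_or_pos n with h | h
    · rw [h]
      simp
    · have h1 := hb n
      rw [zero_mul] at h1
      have h2 : ‖b n‖ ^ 2 ≤ ∑ i ∈ Finset.Icc 1 n, ‖b i‖ ^ 2 :=
        Finset.single_le_sum (f := fun i => ‖b i‖ ^ 2) (fun i _ => sq_nonneg _)
          (Finset.mem_Icc.mpr ⟨h, le_rfl⟩)
      have h3 : ‖b n‖ = 0 := by
        have h4 : ‖b n‖ ^ 2 = 0 := le_antisymm (h2.trans h1) (sq_nonneg _)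
        exact pow_eq_zero_iff (two_ne_zero) |>.mp h4
      rw [norm_eq_zero.mp h3]
      ring
  simp_rw [h0]
  exact tsum_zero

/-- UNI: mean square, uniform in the coefficients -/
theorem ms_uni_pr {S : Sys m} (hm : m ≤ 4) (k : Kers S) (c : ℝ) : ∃ C : ℝ, 0 ≤ C ∧
    ∀ (b : ℕ → ℂ) (Cb : ℝ), 0 ≤ Cb → RSB b Cb → ∀ (Q : ℕ) (u : ℝ), -ellQ S Q - c ≤ u →
      ∑ x ∈ pairs S.N Q, ‖D b (k.K (par x.2)) x u‖ ^ 2 ≤ C * Cb * Q ^ 2 := by
  have h1 : ∀ δ : Fin 2, ∃ C : ℝ, 0 ≤ C ∧ ∀ b : ℕ → ℂ, RSB b 1 → ∀ (Q : ℕ) (u : ℝ),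
      -ellQ S Q - c ≤ u → ∑ x ∈ pairs S.N Q, ‖D b (k.K δ) x u‖ ^ 2 ≤ C * Q ^ 2 := by
    intro δ
    obtain ⟨C0, hC0, h0⟩ := b0_bound_pr k.κ_pos (k.isKer δ) 1
    obtain ⟨C, hC, h⟩ := msf_pr S.N k.κ_pos (k.isKer δ) 1
    refine ⟨C0 + C * (Real.exp c * √S.N), by positivity, fun b hb Q u hu => ?_⟩
    rcases Nat.lt_or_ge Q 1 with hQ | hQ
    · rw [msu_pairs (by omega : Q ≤ 1)]
      simp only [Finset.sum_empty]
      positivity
    · have h2 := h b hb Q u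
      have h3 := msu_exp S hm hQ (u := u + c) (by linarith)
      have h3' : Real.exp (-u) ≤ Real.exp c * √S.N * Q ^ 2 := by
        have e : Real.exp (-u) = Real.exp c * Real.exp (-(u + c)) := by
          rw [← Real.exp_add]
          congr 1
          ring
        rw [e, mul_assoc]
        exact mul_le_mul_of_nonneg_left h3 (Real.exp_pos c).le
      have h4 := mul_le_mul_of_nonneg_left (h0 b hb u).2 (by positivity : (0 : ℝ) ≤ (Q : ℝ) ^ 2)
      have h5 := mul_le_mul_of_nonneg_left h3' hC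
      nlinarith
  obtain ⟨C0, hC0, h0⟩ := h1 0
  obtain ⟨C1, hC1, h1⟩ := h1 1
  refine ⟨C0 + C1, by positivity, fun b Cb hCb hb Q u hu => ?_⟩
  rcases hCb.eq_or_lt with hz | hpos
  · rw [← hz] at hb ⊢
    simp_rw [UNI_zero hb]
    simp
  · have hs : 0 < √Cb := Real.sqrt_pos.mpr hpos
    have hb' : RSB (fun n => (((√Cb)⁻¹ : ℝ) : ℂ) * b n) 1 := by
      intro x
      have h2 : ∀ n, ‖(((√Cb)⁻¹ : ℝ) : ℂ) * b n‖ ^ 2 = Cb⁻¹ * ‖b n‖ ^ 2 := by
        intro n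
        rw [norm_mul, mul_pow, Complex.norm_real, Real.norm_eq_abs, sq_abs, inv_pow,
          Real.sq_sqrt hCb]
      simp_rw [h2]
      rw [← Finset.mul_sum, one_mul, inv_mul_le_iff₀ hpos]
      exact hb x
    have h3 : ∀ (K : ℝ → ℂ) (x : Ix), ‖D b K x u‖ ^ 2 =
        Cb * ‖D (fun n => (((√Cb)⁻¹ : ℝ) : ℂ) * b n) K x u‖ ^ 2 := by
      intro K x
      rw [UNI_scale, norm_mul, mul_pow, Complex.norm_real, Real.norm_eq_abs, sq_abs, inv_pow,
          Real.sq_sqrt hCb, ← mul_assoc, mul_inv_cancel₀ hpos.ne', one_mul]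
    have h2 : ∑ x ∈ pairs S.N Q, ‖D b (k.K (par x.2)) x u‖ ^ 2 ≤ ∑ x ∈ pairs S.N Q,
        (‖D b (k.K 0) x u‖ ^ 2 + ‖D b (k.K 1) x u‖ ^ 2) := by
      refine Finset.sum_le_sum fun x _ => ?_
      have h3 : par x.2 = 0 ∨ par x.2 = 1 := by
        unfold par
        split_ifs
        · exact Or.inr rfl
        · exact Or.inl rfl
      rcases h3 with h3 | h3
      · rw [h3]
        have := sq_nonneg ‖D b (k.K 1) x u‖
        linarith
      · rw [h3]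
        have := sq_nonneg ‖D b (k.K 0) x u‖
        linarith
    refine h2.trans ?_
    simp_rw [h3]
    rw [Finset.sum_add_distrib, ← Finset.mul_sum, ← Finset.mul_sum]
    have g0 := mul_le_mul_of_nonneg_left (h0 _ hb' Q u hu) hCb
    have g1 := mul_le_mul_of_nonneg_left (h1 _ hb' Q u hu) hCb
    refine (add_le_add g0 g1).trans (le_of_eq ?_)
    ring

end Pool.Agent.G5
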