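import Pool.Agent.Lib_helper31.G5.FAMD
import Pool.Agent.Lib_helper44.G5.Defs
import Pool.Agent.Lib_helper44.G5Z.Defs
import Pool.Agent.Lib_helper5.G5.FAMT

/-! Block ZP. -/

namespace Pool.Agent.G5

open Complex MeasureTheory Filter Topology

open Pool.Agent.G4

variable {m : ℕ}

theorem zp_exp_abs {a : ℝ} (ha : 0 < a) : Integrable (fun v : ℝ => Real.exp (-a * |v|)) := by
  by_contra h
  have h1 : ∫ v : ℝ, Real.exp (-a * |v|) = 2 / a := by
    rw [integral_comp_abs (f := fun v => Real.exp (-a * v)), integral_exp_mul_Ioi (by linarith)]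
    field_simp
    simp
  rw [integral_undef h] at h1
  have : 0 < 2 / a := by positivity
  linarith

/-- Cauchy-Schwarz with the weight `1 + u²` -/
theorem zp_cs {f : ℝ → ℂ} (hf : Continuous f) {C : ℝ} (hC : ∀ u, ‖f u‖ ≤ C) :
    (∫ u : ℝ, ‖f u‖ / (1 + u ^ 2)) ^ 2 ≤ Real.pi * ∫ u : ℝ, ‖f u‖ ^ 2 / (1 + u ^ 2) := by
  have hi1 : Integrable fun u : ℝ => (1 + u ^ 2)⁻¹ := integrable_inv_one_add_sq
  have hc1 : Continuous fun u : ℝ => (1 + u ^ 2)⁻¹ :=
    Continuous.inv₀ (by fun_prop) (fun u => by positivity)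
  have hC0 : 0 ≤ C := (norm_nonneg _).trans (hC 0)
  have hi2 : Integrable fun u : ℝ => ‖f u‖ ^ 2 / (1 + u ^ 2) := by
    refine Integrable.mono' (hi1.const_mul (C ^ 2)) ?_ (Eventually.of_forall fun u => ?_)
    · exact ((hf.norm.pow 2).mul hc1).aestronglyMeasurable
    · rw [Real.norm_of_nonneg (by positivity), div_eq_mul_inv]
      exact mul_le_mul_of_nonneg_right (pow_le_pow_left₀ (norm_nonneg _) (hC u) 2) (by positivity)
  have hi3 : Integrable fun u : ℝ => ‖f u‖ / (1 + u ^ 2) := by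
    refine Integrable.mono' (hi1.const_mul C) ?_ (Eventually.of_forall fun u => ?_)
    · exact (hf.norm.mul hc1).aestronglyMeasurable
    · rw [Real.norm_of_nonneg (by positivity), div_eq_mul_inv]
      exact mul_le_mul_of_nonneg_right (hC u) (by positivity)
  set A := ∫ u : ℝ, ‖f u‖ ^ 2 / (1 + u ^ 2) with hA
  set B := ∫ u : ℝ, ‖f u‖ / (1 + u ^ 2) with hB
  have hq : ∀ s : ℝ, 0 ≤ A - 2 * s * B + s ^ 2 * Real.pi := by
    intro s
    have h1 : A - 2 * s * B + s ^ 2 * Real.pi = ∫ u : ℝ, (‖f u‖ - s) ^ 2 / (1 + u ^ 2) := by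
      have h0 : Integrable (fun u : ℝ => ‖f u‖ ^ 2 / (1 + u ^ 2) - 2 * s * (‖f u‖ / (1 + u ^ 2))) :=
        hi2.sub (hi3.const_mul _)
      rw [hA, hB, ← integral_univ_inv_one_add_sq, ← integral_const_mul, ← integral_const_mul,
        ← integral_sub hi2 (hi3.const_mul _), ← integral_add h0 (hi1.const_mul _)]
      congr 1
      ext u
      have : (1 + u ^ 2 : ℝ) ≠ 0 := by positivity
      field_simp
      ring
    rw [h1]
    exact integral_nonneg fun u => by positivity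
  have hpi := Real.pi_pos
  have h2 := hq (B / Real.pi)
  have h3 : A - 2 * (B / Real.pi) * B + (B / Real.pi) ^ 2 * Real.pi = A - B ^ 2 / Real.pi := by
    field_simp
    ring
  rw [h3] at h2
  have h4 : B ^ 2 / Real.pi ≤ A := by linarith
  rw [div_le_iff₀ hpi] at h4
  linarith

theorem zp_mem {S : Sys m} {B : Finset ℕ} (hB : ∀ p ∈ B, p.Prime) :
    ∀ a ∈ facs S B, 1 ≤ a.1 := by
  intro a ha
  unfold facs at ha
  rw [List.mem_map] at ha
  obtain ⟨b, hb, rfl⟩ := ha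
  rw [Finset.mem_toList, Finset.mem_product] at hb
  exact (hB b.1 hb.1).one_le

theorem zp_famT {N : ℕ} (L : List (ℕ × ℂ)) (hL : ∀ a ∈ L, 1 ≤ a.1) {E : Fm} (hE : Fam N E) :
    Fam N (opTs L E) := by
  induction L with
  | nil => exact hE
  | cons a L ih =>
    have h1 := ih (fun b hb => hL b (List.mem_cons_of_mem _ hb))
    exact fam_opT_pr h1 (hL a List.mem_cons_self)

theorem zp_HET {N : ℕ} (L : List (ℕ × ℂ)) (hL : ∀ a ∈ L, 1 ≤ a.1) {E : Fm} (hE : Fam N E)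
    {x : Ix} (hx : x.q.Coprime N) (hp : x.2.IsPrimitive) (z : ℂ) :
    HE (opTs L E) x z =
      (L.map fun a => 1 - a.2 * (ev x a.1 * (a.1 : ℂ) ^ (-(1 / 2 + z)))).prod * HE E x z := by
  induction L with
  | nil => simp [opTs]
  | cons a L ih =>
    have hL' : ∀ b ∈ L, 1 ≤ b.1 := fun b hb => hL b (List.mem_cons_of_mem _ hb)
    have h1 := ih hL'
    have h2 := HE_opT_pr (zp_famT L hL' hE) (hL a List.mem_cons_self) hx hp z
    show HE (opT a (opTs L E)) x z = _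
    rw [h2, h1, List.map_cons, List.prod_cons]
    ring

theorem zp_prod (S : Sys m) (B : Finset ℕ) (g : ℕ × ℂ → ℂ) :
    ((facs S B).map g).prod = ∏ p ∈ B, ∏ j, g (p, S.α p j) := by
  unfold facs
  rw [List.map_map, Finset.prod_map_toList, Finset.prod_product]
  rfl

/-- two-sided decay of the twisted kernel -/
theorem zp_ker {κ : ℝ} (hκ : 0 < κ) {K : ℝ → ℂ} (hK : IsKer κ K) {σ δ : ℝ} (hσ : 0 < σ)
    (hδ : δ ≤ 1) (hδ' : δ ≤ σ / 2) : ∃ C : ℝ, 0 ≤ C ∧ ∀ u : ℝ,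
      ‖K u‖ * Real.exp (σ * u) ≤ C * Real.exp (-δ * |u|) := by
  obtain ⟨C1, h1⟩ := hK.le (σ + 1) (by linarith)
  obtain ⟨C2, h2⟩ := hK.le (σ / 2) (by linarith)
  have hC1 : 0 ≤ C1 := by
    have := (norm_nonneg _).trans (h1 0)
    simpa using this
  have hC2 : 0 ≤ C2 := by
    have := (norm_nonneg _).trans (h2 0)
    simpa using this
  refine ⟨C1 + C2, by positivity, fun u => ?_⟩
  rcases le_total 0 u with hu | hu
  · rw [abs_of_nonneg hu]
    calc ‖K u‖ * Real.exp (σ * u) ≤ C1 * Real.exp (-(σ + 1) * u) * Real.exp (σ * u) :=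
          mul_le_mul_of_nonneg_right (h1 u) (Real.exp_nonneg _)
      _ = C1 * Real.exp (-u) := by
          rw [mul_assoc, ← Real.exp_add]
          congr 2
          ring
      _ ≤ C1 * Real.exp (-δ * u) := by
          refine mul_le_mul_of_nonneg_left (Real.exp_le_exp.mpr ?_) hC1
          nlinarith
      _ ≤ _ := by
          have := mul_nonneg hC2 (Real.exp_nonneg (-δ * u))
          linarith
  · rw [abs_of_nonpos hu]
    calc ‖K u‖ * Real.exp (σ * u) ≤ C2 * Real.exp (-(σ / 2) * u) * Real.exp (σ * u) :=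
          mul_le_mul_of_nonneg_right (h2 u) (Real.exp_nonneg _)
      _ = C2 * Real.exp (σ / 2 * u) := by
          rw [mul_assoc, ← Real.exp_add]
          congr 2
          ring
      _ ≤ C2 * Real.exp (-δ * -u) := by
          refine mul_le_mul_of_nonneg_left (Real.exp_le_exp.mpr ?_) hC2
          nlinarith
      _ ≤ _ := by
          have := mul_nonneg hC1 (Real.exp_nonneg (-δ * -u))
          linarith

/-- two-sided decay of the twisted density -/
theorem zp_fam {T : ℝ → ℂ} (hd : ∀ A : ℝ, ∃ C : ℝ, ∀ u : ℝ, ‖T u‖ ≤ C * Real.exp (-A * |u|))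
    {σ δ : ℝ} (hσ : 0 < σ) (hδ : δ ≤ 1) : ∃ C : ℝ, 0 ≤ C ∧ ∀ u : ℝ,
      ‖T u‖ * Real.exp (σ * u) ≤ C * Real.exp (-δ * |u|) := by
  obtain ⟨C, hC⟩ := hd (σ + 1)
  have hC0 : 0 ≤ C := by
    have := (norm_nonneg _).trans (hC 0)
    simpa using this
  refine ⟨C, hC0, fun u => ?_⟩
  calc ‖T u‖ * Real.exp (σ * u) ≤ C * Real.exp (-(σ + 1) * |u|) * Real.exp (σ * u) :=
        mul_le_mul_of_nonneg_right (hC u) (Real.exp_nonneg _)
    _ = C * Real.exp (-(σ + 1) * |u| + σ * u) := by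
        rw [mul_assoc, ← Real.exp_add]
    _ ≤ C * Real.exp (-δ * |u|) := by
        refine mul_le_mul_of_nonneg_left (Real.exp_le_exp.mpr ?_) hC0
        have h1 := le_abs_self u
        have h2 := abs_nonneg u
        nlinarith

theorem zp_sq_exp {δ : ℝ} (hδ : 0 < δ) (u : ℝ) :
    (1 + u ^ 2) * Real.exp (-δ * |u|) ≤ 1 + 2 / δ ^ 2 := by
  have h0 : 0 ≤ δ * |u| := by positivity
  have h1 : 1 + (δ * |u|) + (δ * |u|) ^ 2 / 2 ≤ Real.exp (δ * |u|) :=
    Real.quadratic_le_exp_of_nonneg h0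
  have h2 : Real.exp (-δ * |u|) = (Real.exp (δ * |u|))⁻¹ := by
    rw [← Real.exp_neg]
    congr 1
    ring
  rw [h2, ← div_eq_mul_inv, div_le_iff₀ (Real.exp_pos _)]
  have h3 : (δ * |u|) ^ 2 = δ ^ 2 * u ^ 2 := by rw [mul_pow, sq_abs]
  rw [h3] at h1
  have h4 : 0 < δ ^ 2 := by positivity
  have h5 : u ^ 2 ≤ 2 / δ ^ 2 * Real.exp (δ * |u|) := by
    rw [div_mul_eq_mul_div, le_div_iff₀ h4]
    nlinarith
  have h6 : 1 ≤ Real.exp (δ * |u|) := Real.one_le_exp h0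
  rw [add_mul]
  linarith

/-- ZP: pointwise bound -/
theorem ez_point_pr {S : Sys m} (hm : m ≤ 4) (k : Kers S) {B : Finset ℕ} (hB : ∀ p ∈ B, p.Prime)
    {x : Ix} (hx : x.q.Coprime S.N) (hp : x.2.IsPrimitive) {σ₁ σ₂ : ℝ} (h1 : 0 < σ₁) {z : ℂ}
    (hz1 : σ₁ ≤ z.re) (hz2 : z.re ≤ σ₂) :
    ‖Hf k x z * PB S B x (1 / 2 + z) - S.gam (par x.2) (1 / 2 + z)‖ ^ 2 ≤
      Real.pi * (nzw σ₁ (EZ k B x) + nzw σ₂ (EZ k B x)) := by
  have hF : Fam S.N (opTs (facs S B) (Dx k)) := zp_famT _ (zp_mem hB) (fam_D_pr hm k)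
  set T : ℝ → ℂ := opTs (facs S B) (Dx k) x with hT
  set K : ℝ → ℂ := k.K (par x.2) with hK
  have hTc : Continuous T := hF.cont x
  have hTd := hF.dec x hx hp
  have hKk : IsKer k.κ K := k.isKer _
  have hEc : Continuous (EZ k B x) := hTc.sub hKk.cont
  have hEe : ∀ u, EZ k B x u = T u - K u := fun u => rfl
  -- decay
  have hdec : ∀ σ : ℝ, 0 < σ → ∃ C δ : ℝ, 0 ≤ C ∧ 0 < δ ∧ ∀ u : ℝ,
      ‖T u‖ * Real.exp (σ * u) ≤ C * Real.exp (-δ * |u|) ∧
      ‖K u‖ * Real.exp (σ * u) ≤ C * Real.exp (-δ * |u|) ∧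
      ‖EZ k B x u‖ * Real.exp (σ * u) ≤ C * Real.exp (-δ * |u|) := by
    intro σ hσ
    have hδ0 : 0 < min 1 (σ / 2) := by
      apply lt_min one_pos
      linarith
    obtain ⟨C1, hC1, h1⟩ := zp_fam hTd (δ := min 1 (σ / 2)) hσ (min_le_left _ _)
    obtain ⟨C2, hC2, h2⟩ := zp_ker k.κ_pos hKk (δ := min 1 (σ / 2)) hσ (min_le_left _ _)
      (min_le_right _ _)
    refine ⟨C1 + C2, min 1 (σ / 2), by positivity, hδ0, fun u => ?_⟩
    have he := Real.exp_nonneg (-(min 1 (σ / 2)) * |u|)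
    have e1 := mul_nonneg hC1 he
    have e2 := mul_nonneg hC2 he
    have e3 := h1 u
    have e4 := h2 u
    refine ⟨by linarith, by linarith, ?_⟩
    rw [hEe]
    have e5 := mul_le_mul_of_nonneg_right (norm_sub_le (T u) (K u)) (Real.exp_nonneg (σ * u))
    linarith
  have hz0 : 0 < z.re := by linarith
  have hexp : ∀ u : ℝ, ‖cexp (z * u)‖ = Real.exp (z.re * u) := by
    intro u
    rw [Complex.norm_exp]
    congr 1
    simp
  -- the transform
  obtain ⟨C, δ, hC0, hδ0, hC⟩ := hdec z.re hz0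
  have hiT : Integrable fun u : ℝ => T u * cexp (z * u) := by
    refine Integrable.mono' ((zp_exp_abs hδ0).const_mul C)
      (hTc.mul (by fun_prop)).aestronglyMeasurable (Eventually.of_forall fun u => ?_)
    rw [norm_mul, hexp]
    exact (hC u).1
  have hiK : Integrable fun u : ℝ => K u * cexp (z * u) := by
    refine Integrable.mono' ((zp_exp_abs hδ0).const_mul C)
      (hKk.cont.mul (by fun_prop)).aestronglyMeasurable (Eventually.of_forall fun u => ?_)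
    rw [norm_mul, hexp]
    exact (hC u).2.1
  have htr : Hf k x z * PB S B x (1 / 2 + z) - S.gam (par x.2) (1 / 2 + z) =
      ∫ u : ℝ, EZ k B x u * cexp (z * u) := by
    have e1 : ∫ u : ℝ, T u * cexp (z * u) = PB S B x (1 / 2 + z) * Hf k x z := by
      have := zp_HET (facs S B) (zp_mem hB) (fam_D_pr hm k) hx hp z
      rw [zp_prod] at this
      exact this
    have e2 : ∫ u : ℝ, K u * cexp (z * u) = S.gam (par x.2) (1 / 2 + z) :=
      k.mellin _ z (by linarith [k.κ_pos])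
    have e3 : (fun u : ℝ => EZ k B x u * cexp (z * u)) =
        fun u : ℝ => T u * cexp (z * u) - K u * cexp (z * u) := by
      ext u
      rw [hEe]
      ring
    rw [e3, integral_sub hiT hiK, e1, e2]
    ring
  rw [htr]
  -- Cauchy-Schwarz
  have hfc : Continuous fun u : ℝ => EZ k B x u * cexp (z * u) * ((1 + u ^ 2 : ℝ) : ℂ) :=
    (hEc.mul (by fun_prop)).mul (by fun_prop)
  have hfn : ∀ u : ℝ, ‖EZ k B x u * cexp (z * u) * ((1 + u ^ 2 : ℝ) : ℂ)‖ =
      ‖EZ k B x u‖ * Real.exp (z.re * u) * (1 + u ^ 2) := by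
    intro u
    rw [norm_mul, norm_mul, hexp, Complex.norm_real, Real.norm_of_nonneg (by positivity)]
  have hcs := zp_cs hfc (C := C * (1 + 2 / δ ^ 2)) (by
    intro u
    rw [hfn]
    calc ‖EZ k B x u‖ * Real.exp (z.re * u) * (1 + u ^ 2)
        ≤ C * Real.exp (-δ * |u|) * (1 + u ^ 2) :=
          mul_le_mul_of_nonneg_right (hC u).2.2 (by positivity)
      _ = C * ((1 + u ^ 2) * Real.exp (-δ * |u|)) := by ring
      _ ≤ _ := mul_le_mul_of_nonneg_left (zp_sq_exp hδ0 u) hC0)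
  have hl : ‖∫ u : ℝ, EZ k B x u * cexp (z * u)‖ ≤
      ∫ u : ℝ, ‖EZ k B x u * cexp (z * u) * ((1 + u ^ 2 : ℝ) : ℂ)‖ / (1 + u ^ 2) := by
    refine (norm_integral_le_integral_norm _).trans (le_of_eq ?_)
    congr 1
    ext u
    rw [hfn, norm_mul, hexp, mul_div_assoc, div_self (by positivity), mul_one]
  have hi : ∀ σ : ℝ, 0 < σ → Integrable fun u : ℝ =>
      ‖EZ k B x u‖ ^ 2 * ((1 + u ^ 2) * Real.exp (2 * σ * u)) := by
    intro σ hσ
    obtain ⟨C', δ', hC0', hδ0', hC'⟩ := hdec σ hσ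
    refine Integrable.mono' ((zp_exp_abs hδ0').const_mul (C' ^ 2 * (1 + 2 / δ' ^ 2)))
      ((hEc.norm.pow 2).mul (by fun_prop)).aestronglyMeasurable (Eventually.of_forall fun u => ?_)
    rw [Real.norm_of_nonneg (by positivity)]
    have e1 : ‖EZ k B x u‖ ^ 2 * ((1 + u ^ 2) * Real.exp (2 * σ * u)) =
        (‖EZ k B x u‖ * Real.exp (σ * u)) ^ 2 * (1 + u ^ 2) := by
      rw [mul_pow, ← Real.exp_nat_mul]
      have : Real.exp (2 * σ * u) = Real.exp ((2 : ℕ) * (σ * u)) := by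
        congr 1
        push_cast
        ring
      rw [this]
      ring
    rw [e1]
    have e2 := pow_le_pow_left₀ (by positivity) (hC' u).2.2 2
    have e3 := zp_sq_exp hδ0' u
    calc (‖EZ k B x u‖ * Real.exp (σ * u)) ^ 2 * (1 + u ^ 2)
        ≤ (C' * Real.exp (-δ' * |u|)) ^ 2 * (1 + u ^ 2) :=
          mul_le_mul_of_nonneg_right e2 (by positivity)
      _ = C' ^ 2 * Real.exp (-δ' * |u|) * ((1 + u ^ 2) * Real.exp (-δ' * |u|)) := by ring
      _ ≤ C' ^ 2 * Real.exp (-δ' * |u|) * (1 + 2 / δ' ^ 2) :=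
          mul_le_mul_of_nonneg_left e3 (by positivity)
      _ = _ := by ring
  have hr : ∫ u : ℝ, ‖EZ k B x u * cexp (z * u) * ((1 + u ^ 2 : ℝ) : ℂ)‖ ^ 2 / (1 + u ^ 2) ≤
      nzw σ₁ (EZ k B x) + nzw σ₂ (EZ k B x) := by
    unfold nzw
    rw [← integral_add (hi σ₁ h1) (hi σ₂ (by linarith))]
    refine integral_mono_of_nonneg (Eventually.of_forall fun u => by positivity)
      ((hi σ₁ h1).add (hi σ₂ (by linarith))) (Eventually.of_forall fun u => ?_)
    show ‖EZ k B x u * cexp (z * u) * ((1 + u ^ 2 : ℝ) : ℂ)‖ ^ 2 / (1 + u ^ 2) ≤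
      ‖EZ k B x u‖ ^ 2 * ((1 + u ^ 2) * Real.exp (2 * σ₁ * u)) +
        ‖EZ k B x u‖ ^ 2 * ((1 + u ^ 2) * Real.exp (2 * σ₂ * u))
    rw [hfn]
    have e1 : (‖EZ k B x u‖ * Real.exp (z.re * u) * (1 + u ^ 2)) ^ 2 / (1 + u ^ 2) =
        ‖EZ k B x u‖ ^ 2 * (1 + u ^ 2) * Real.exp (2 * z.re * u) := by
      have : Real.exp (2 * z.re * u) = Real.exp (z.re * u) ^ 2 := by
        rw [← Real.exp_nat_mul]
        congr 1
        push_cast
        ring
      rw [this]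
      have : (1 + u ^ 2 : ℝ) ≠ 0 := by positivity
      field_simp
    have e2 : Real.exp (2 * z.re * u) ≤ Real.exp (2 * σ₁ * u) + Real.exp (2 * σ₂ * u) := by
      rcases le_total 0 u with hu | hu
      · have : Real.exp (2 * z.re * u) ≤ Real.exp (2 * σ₂ * u) :=
          Real.exp_le_exp.mpr (by nlinarith)
        have := Real.exp_nonneg (2 * σ₁ * u)
        linarith
      · have : Real.exp (2 * z.re * u) ≤ Real.exp (2 * σ₁ * u) :=
          Real.exp_le_exp.mpr (by nlinarith)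
        have := Real.exp_nonneg (2 * σ₂ * u)
        linarith
    rw [e1]
    have e3 := mul_le_mul_of_nonneg_left e2
      (by positivity : 0 ≤ ‖EZ k B x u‖ ^ 2 * (1 + u ^ 2))
    linarith
  calc ‖∫ u : ℝ, EZ k B x u * cexp (z * u)‖ ^ 2
      ≤ (∫ u : ℝ, ‖EZ k B x u * cexp (z * u) * ((1 + u ^ 2 : ℝ) : ℂ)‖ / (1 + u ^ 2)) ^ 2 :=
        pow_le_pow_left₀ (norm_nonneg _) hl 2
    _ ≤ _ := hcs.trans (mul_le_mul_of_nonneg_left hr Real.pi_pos.le)

end Pool.Agent.G5
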